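import Mathlib

namespace Pool.Agent.H.MP_a8c71c_co

open Finset

/-- `F` contains an induced copy of the Boolean lattice `Q_k` -/
def HasCopy {α : Type} (k : ℕ) (F : Finset (Finset α)) : Prop :=
  ∃ f : Finset (Fin k) → Finset α, f.Injective ∧ (∀ x, f x ∈ F) ∧ ∀ x y, x ⊆ y ↔ f x ⊆ f y

/-- `F` is induced-`Q_k`-saturated -/
def Sat {α : Type} [DecidableEq α] (k : ℕ) (F : Finset (Finset α)) : Prop :=
  ¬ HasCopy k F ∧ ∀ S, S ∉ F → HasCopy k (insert S F)

/-- the induced saturation number `sat*(n, Q_k)` -/
noncomputable def satStar (n k : ℕ) : ℕ :=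
  sInf {c | ∃ F : Finset (Finset (Fin n)), Sat k F ∧ F.card = c}

lemma HasCopy.map {α β : Type} {k : ℕ} {F : Finset (Finset α)} (e : α ≃ β) (h : HasCopy k F) :
    HasCopy k (F.map e.finsetCongr.toEmbedding) := by
  obtain ⟨f, h1, h2, h3⟩ := h
  refine ⟨fun x => e.finsetCongr (f x), e.finsetCongr.injective.comp h1,
    fun x => mem_map_of_mem _ (h2 x), fun x y => ?_⟩
  rw [h3]
  exact map_subset_map.symm

lemma Sat.map {α β : Type} [DecidableEq α] [DecidableEq β] {k : ℕ} {F : Finset (Finset α)}
    (e : α ≃ β) (h : Sat k F) : Sat k (F.map e.finsetCongr.toEmbedding) := by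
  refine ⟨fun h1 => h.1 ?_, fun S hS => ?_⟩
  · have := h1.map e.symm
    rw [map_map] at this
    convert this
    ext S
    simp [map_map]
  · obtain ⟨S, rfl⟩ := e.finsetCongr.surjective S
    have := (h.2 S fun h1 => hS (mem_map_of_mem e.finsetCongr.toEmbedding h1)).map e
    rwa [map_insert] at this

lemma copy_of {α : Type} [Fintype α] [DecidableEq α] {G : Finset (Finset α)}
    (hs : ∀ s : Finset α, s.card ≤ 1 → s ∈ G ∧ sᶜ ∈ G) {x : Fin 4 → α} (hx : x.Injective)
    (h : ∀ i j, i ≠ j → ∃ S ∈ G, ∀ k, x k ∈ S ↔ (k = i ∨ k = j)) : HasCopy 4 G := by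
  have h1 : ∀ τ : Finset (Fin 4), ∃ S ∈ G, (∀ k, x k ∈ S ↔ k ∈ τ) ∧
      (τ.card ≤ 1 → S = τ.image x) ∧ (3 ≤ τ.card → S = (τᶜ.image x)ᶜ) := by
    intro τ
    by_cases c1 : τ.card ≤ 1
    · exact ⟨_, (hs _ (card_image_le.trans c1)).1, fun k => hx.mem_finset_image,
        fun _ => rfl, fun h => by omega⟩
    by_cases c2 : 3 ≤ τ.card
    · refine ⟨_, (hs (τᶜ.image x) (card_image_le.trans ?_)).2, fun k => ?_,
        fun h => absurd h c1, fun _ => rfl⟩
      · rw [card_compl, Fintype.card_fin]; omega
      · rw [mem_compl, hx.mem_finset_image, mem_compl, not_not]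
    obtain ⟨i, j, hij, rfl⟩ := card_eq_two.1 (show τ.card = 2 by omega)
    obtain ⟨S, a1, a2⟩ := h i j hij
    exact ⟨S, a1, fun k => by rw [a2]; simp, fun h => absurd h c1, fun h => absurd h c2⟩
  choose f f1 f2 f3 f4 using h1
  have back : ∀ σ τ, f σ ⊆ f τ → σ ⊆ τ := fun σ τ h k hk => (f2 τ k).1 (h ((f2 σ k).2 hk))
  refine ⟨f, fun σ τ e => Subset.antisymm (back _ _ e.subset) (back _ _ e.symm.subset), f1,
    fun σ τ => ⟨fun h => ?_, back σ τ⟩⟩
  by_cases c1 : σ.card ≤ 1
  · rw [f3 σ c1]
    intro y hy
    obtain ⟨k, hk, rfl⟩ := mem_image.1 hy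
    exact (f2 τ k).2 (h hk)
  by_cases c2 : 3 ≤ τ.card
  · rw [f4 τ c2]
    intro y hy
    rw [mem_compl]
    intro hy'
    obtain ⟨k, hk, rfl⟩ := mem_image.1 hy'
    exact mem_compl.1 hk (h ((f2 σ k).1 hy))
  · rw [eq_of_subset_of_card_le h (by omega)]

lemma of_copy {α : Type} {G : Finset (Finset α)} (h : HasCopy 4 G) :
    ∃ x : Fin 4 → α, x.Injective ∧ ∀ i j, ∃ S ∈ G, ∀ k, x k ∈ S ↔ (k = i ∨ k = j) := by
  obtain ⟨f, -, h2, h3⟩ := h
  have h4 : ∀ i : Fin 4, ∃ a ∈ f {i}, a ∉ f {i}ᶜ := fun i =>
    not_subset.1 fun h => by simpa using (h3 _ _).2 h (mem_singleton_self i)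
  choose x x1 x2 using h4
  have tr : ∀ τ k, x k ∈ f τ ↔ k ∈ τ := fun τ k =>
    ⟨fun h => by
      by_contra hk
      exact x2 k ((h3 τ _).1 (fun a ha => by simp; rintro rfl; exact hk ha) h),
    fun h => (h3 _ _).1 (singleton_subset_iff.2 h) (x1 k)⟩
  refine ⟨x, fun i j e => ?_, fun i j => ⟨f {i, j}, h2 _, fun k => by rw [tr]; simp⟩⟩
  have := x1 j
  rw [← e, tr] at this
  simpa using this

def la : List ℕ := [0, 1, 2, 4, 8, 10, 12, 14, 15, 16, 20, 28, 32, 33, 34, 36, 37, 38, 39, 48, 52,
  53, 56, 60]
def lb : List ℕ := [3, 11, 30, 31, 35, 43, 45, 47, 55, 59, 61, 62, 63]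
def ll : List ℕ := [0, 1, 2, 16, 28]
def lu : List ℕ := [63]

def core (t : ℕ) : Finset (Fin 6) := univ.filter fun i => t.testBit i

def V : List (ℕ × ℕ) := la.map (·, 0) ++ lb.map (·, 15) ++
  (ll.flatMap fun t => (List.finRange 4).map fun z => (t, 2 ^ z.val)) ++
  (lu.flatMap fun t => (List.finRange 4).map fun z => (t, 15 - 2 ^ z.val))

def V2 : List (ℕ × ℕ) := V ++ ll.map (·, 0) ++ lu.map (·, 15)

def bt (v : ℕ × ℕ) (t : Fin 10) : Bool :=
  if t.val < 6 then v.1.testBit t else v.2.testBit (t - 6)

def bt2 (v : ℕ × ℕ) (c : Fin 7) (i : Fin 4) : Bool :=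
  if c.val < 6 then v.1.testBit c else v.2.testBit i

def wn : ℕ := 984187417641000094108410741064100000931083107310631065106510651065100000000092108210721062106520941084107410641032103210321032103210651065106510651000000000943184317431643143104310431043104310653165316531653100006510651065106510000043209210821072106210431043104310431043104320432043204320432065106510651065100000000095438543754365436430643064306430654300009310831073106310651065106510651065430000921082107210621065206520652065206543321032103210321032106510651065106510654364326432643264320000653065306530653000006531653165316531000065106510651065100000000092108210721062106520652065206520000065216521652165210000651065106510651000000000954185417541654100009410841074106410521052105210521052107610761076100000000054209210821072106210762094108410741064103210321032103210321076107610761054325432532053205320532053204310431043104310431052105210521052105210761076107610653200004320921082107210621043104310431043104310541054105410541054107610761076100000000065426542654265420000643064306430643000005210521052105210521076107610761064300000000092108210721062107620762076206430000032103210321032103210761076107610643000005320532053205320532076307630763053215321521052105210521052107610761076106432000000009210821072106210762076207620000000007621762176210000000076107610761000000000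

def wit (t r : ℕ) (i : Fin 4) : Fin 10 := ⟨wn / 10 ^ (4 * (5 * t + r) + i) % 10, Nat.mod_lt _ (by decide)⟩

end Pool.Agent.H.MP_a8c71c_co
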