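import Pool.Agent.H.MP_a8c71c_co.D

namespace Pool.Agent.H.MP_a8c71c_co

open Finset

variable {m : ℕ}

def inF (S : Finset (Fin 6 ⊕ Fin m)) : Prop :=
  (∃ t ∈ la, S.toLeft = core t ∧ S.toRight = ∅) ∨ (∃ t ∈ lb, S.toLeft = core t ∧ S.toRight = univ) ∨
    (∃ t ∈ ll, S.toLeft = core t ∧ ∃ z, S.toRight = {z}) ∨
    ∃ t ∈ lu, S.toLeft = core t ∧ ∃ z, S.toRight = univ.erase z

open Classical in
noncomputable def FF (m : ℕ) : Finset (Finset (Fin 6 ⊕ Fin m)) := univ.filter inF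

lemma mem_FF {S : Finset (Fin 6 ⊕ Fin m)} : S ∈ FF m ↔ inF S := by simp [FF]

lemma card_FF : (FF m).card ≤ 6 * m + 37 := by
  have h : FF m ⊆ ((la.toFinset.image fun t => (core t).disjSum ∅) ∪
      (lb.toFinset.image fun t => (core t).disjSum univ)) ∪
      (((ll.toFinset ×ˢ (univ : Finset (Fin m))).image fun p => (core p.1).disjSum {p.2}) ∪
      ((lu.toFinset ×ˢ (univ : Finset (Fin m))).image fun p =>
        (core p.1).disjSum (univ.erase p.2))) := by
    intro S hS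
    simp only [mem_union, mem_image, mem_product, List.mem_toFinset, mem_univ, and_true]
    rcases mem_FF.1 hS with ⟨t, h, h1, h2⟩ | ⟨t, h, h1, h2⟩ | ⟨t, h, h1, z, h2⟩ | ⟨t, h, h1, z, h2⟩
    · exact Or.inl (Or.inl ⟨t, h, by rw [← h1, ← h2, toLeft_disjSum_toRight]⟩)
    · exact Or.inl (Or.inr ⟨t, h, by rw [← h1, ← h2, toLeft_disjSum_toRight]⟩)
    · exact Or.inr (Or.inl ⟨(t, z), h, by simp only; rw [← h1, ← h2, toLeft_disjSum_toRight]⟩)
    · exact Or.inr (Or.inr ⟨(t, z), h, by simp only; rw [← h1, ← h2, toLeft_disjSum_toRight]⟩)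
  refine (card_le_card h).trans ((card_union_le _ _).trans ?_)
  have a1 : la.toFinset.card ≤ 24 := List.toFinset_card_le _
  have a2 : lb.toFinset.card ≤ 13 := List.toFinset_card_le _
  have a3 : ll.toFinset.card ≤ 5 := List.toFinset_card_le _
  have a4 : lu.toFinset.card ≤ 1 := List.toFinset_card_le _
  refine (add_le_add ((card_union_le _ _).trans (add_le_add card_image_le card_image_le))
    ((card_union_le _ _).trans (add_le_add card_image_le card_image_le))).trans ?_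
  rw [card_product, card_product, card_univ, Fintype.card_fin]
  nlinarith

lemma small (s : Finset (Fin 6 ⊕ Fin m)) (hs : s.card ≤ 1) : s ∈ FF m ∧ sᶜ ∈ FF m := by
  obtain ⟨w1, w2, w3, -⟩ := W4
  rw [mem_FF, mem_FF]
  rcases s.eq_empty_or_nonempty with rfl | hne
  · exact ⟨Or.inl ⟨0, by decide, by rw [w2]; ext; simp, by ext; simp⟩,
      Or.inr (Or.inl ⟨63, by decide, by rw [w3]; ext; simp, by ext; simp⟩)⟩
  obtain ⟨x, rfl⟩ := card_eq_one.1 (le_antisymm hs hne.card_pos)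
  rcases x with i | z
  · obtain ⟨⟨t, h1, h2⟩, t', h3, h4⟩ := w1 i
    exact ⟨Or.inl ⟨t, h1, by rw [← h2]; ext; simp, by ext; simp⟩,
      Or.inr (Or.inl ⟨t', h3, by rw [← h4]; ext; simp, by ext; simp⟩)⟩
  · exact ⟨Or.inr (Or.inr (Or.inl ⟨0, by decide, by rw [w2]; ext; simp, z, by ext; simp⟩)),
      Or.inr (Or.inr (Or.inr ⟨63, by decide, by rw [w3]; ext; simp, z, by ext; simp⟩))⟩

def emb (y : Fin 4 → Fin m) (t : Fin 10) : Fin 6 ⊕ Fin m :=
  if h : t.val < 6 then .inl ⟨t, h⟩ else .inr (y ⟨t - 6, by omega⟩)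

lemma emb_inj {y : Fin 4 → Fin m} (hy : y.Injective) : (emb y).Injective := by
  intro a b e
  unfold emb at e
  split_ifs at e with h1 h2
  · exact Fin.ext (by simpa using e)
  · have := congrArg Fin.val (hy (Sum.inr.inj e))
    exact Fin.ext (by simp only at this; omega)

lemma rep {y : Fin 4 → Fin m} {S : Finset (Fin 6 ⊕ Fin m)} {t p : ℕ} (h1 : S.toLeft = core t)
    (h2 : ∀ z, y z ∈ S.toRight ↔ p.testBit z = true) (a : Fin 10) :
    emb y a ∈ S ↔ bt (t, p) a = true := by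
  unfold emb bt
  split_ifs with h
  · rw [← mem_toLeft, h1]; simp [core]
  · rw [← mem_toRight, h2]

lemma real {y : Fin 4 → Fin m} (hy : y.Injective) {v : ℕ × ℕ} (hv : v ∈ V) :
    ∃ S ∈ FF m, ∀ a, emb y a ∈ S ↔ bt v a = true := by
  obtain ⟨-, -, -, w, -⟩ := W4
  simp only [V, List.mem_append, List.mem_map, List.mem_flatMap] at hv
  rcases hv with ((⟨t, h, rfl⟩ | ⟨t, h, rfl⟩) | ⟨t, h, z, -, rfl⟩) | ⟨t, h, z, -, rfl⟩
  · exact ⟨(core t).disjSum ∅, mem_FF.2 (Or.inl ⟨t, h, toLeft_disjSum, toRight_disjSum⟩),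
      rep toLeft_disjSum fun z => by rw [toRight_disjSum]; simp⟩
  · exact ⟨(core t).disjSum univ, mem_FF.2 (Or.inr (Or.inl ⟨t, h, by simp, by simp⟩)),
      rep (by simp) fun z => by simp [(w z z).2.2]⟩
  · exact ⟨(core t).disjSum {y z}, mem_FF.2 (Or.inr (Or.inr (Or.inl ⟨t, h, by simp, y z, by simp⟩))),
      rep (by simp) fun z' => by rw [(w z z').2.1]; simp [hy.eq_iff]⟩
  · exact ⟨(core t).disjSum (univ.erase (y z)),
      mem_FF.2 (Or.inr (Or.inr (Or.inr ⟨t, h, by simp, y z, by simp⟩))),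
      rep (by simp) fun z' => by rw [(w z z').1]; simp [hy.eq_iff]⟩

lemma pick (U : Finset (Fin m)) {r : ℕ} (h1 : r ≤ U.card) (h2 : 4 - r ≤ Uᶜ.card) :
    ∃ y : Fin 4 → Fin m, y.Injective ∧ ∀ z, y z ∈ U ↔ z.val < r := by
  let f := orderEmbOfCardLe U h1
  let g := orderEmbOfCardLe Uᶜ h2
  have hf : ∀ i, f i ∈ U := orderEmbOfCardLe_mem U h1
  have hg : ∀ i, g i ∉ U := fun i => mem_compl.1 (orderEmbOfCardLe_mem Uᶜ h2 i)
  refine ⟨fun z => if h : z.val < r then f ⟨z, h⟩ else g ⟨z - r, by omega⟩, fun a b e => ?_,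
    fun z => ?_⟩
  · simp only at e
    split_ifs at e with c1 c2 c2
    · exact Fin.ext (by simpa using f.injective e)
    · exact absurd (e ▸ hf _) (hg _)
    · exact absurd (e ▸ hf _) (hg _)
    · have := congrArg Fin.val (g.injective e)
      exact Fin.ext (by simp only at this; omega)
  · simp only
    split_ifs with h
    · simp [hf, h]
    · simp [hg, h]

lemma typ (hm : 4 ≤ m) (U : Finset (Fin m)) : ∃ r < 5, r ≤ U.card ∧ 4 - r ≤ Uᶜ.card ∧
    (r = 0 → U = ∅) ∧ (r = 4 → U = univ) ∧ (r = 1 → ∃ z, U = {z}) ∧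
    (r = 3 → ∃ z, U = univ.erase z) := by
  have h := card_add_card_compl U
  rw [Fintype.card_fin] at h
  by_cases c0 : U.card = 0
  · exact ⟨0, by omega, by omega, by omega, fun _ => card_eq_zero.1 c0, by omega, by omega, by omega⟩
  by_cases c1 : U.card = 1
  · exact ⟨1, by omega, by omega, by omega, by omega, by omega, fun _ => card_eq_one.1 c1, by omega⟩
  by_cases c4 : Uᶜ.card = 0
  · exact ⟨4, by omega, by omega, by omega, by omega,
      fun _ => by simpa using card_eq_zero.1 c4, by omega, by omega⟩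
  by_cases c3 : Uᶜ.card = 1
  · refine ⟨3, by omega, by omega, by omega, by omega, by omega, by omega, fun _ => ?_⟩
    obtain ⟨z, hz⟩ := card_eq_one.1 c3
    exact ⟨z, by rw [← compl_singleton, ← hz, compl_compl]⟩
  · exact ⟨2, by omega, by omega, by omega, by omega, by omega, by omega, by omega⟩

lemma sat2 (hm : 4 ≤ m) (S : Finset (Fin 6 ⊕ Fin m)) (hS : S ∉ FF m) :
    HasCopy 4 (insert S (FF m)) := by
  rw [mem_FF] at hS
  obtain ⟨t, ht, hT⟩ := W3 S.toLeft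
  obtain ⟨r, hr, a1, a2, b0, b4, b1, b3⟩ := typ hm S.toRight
  obtain ⟨y, hy, hy'⟩ := pick _ a1 a2
  obtain ⟨c1, c2⟩ := W1 t ht r hr (fun h h' => hS (Or.inl ⟨t, h', hT, b0 h⟩))
    (fun h h' => hS (Or.inr (Or.inl ⟨t, h', hT, b4 h⟩)))
    (fun h h' => hS (Or.inr (Or.inr (Or.inl ⟨t, h', hT, b1 h⟩))))
    (fun h h' => hS (Or.inr (Or.inr (Or.inr ⟨t, h', hT, b3 h⟩))))
  refine copy_of (fun s hs => ⟨mem_insert_of_mem (small s hs).1, mem_insert_of_mem (small s hs).2⟩)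
    (x := fun k => emb y (wit t r k)) (fun i j e => c1 i j (emb_inj hy e)) fun i j hij => ?_
  obtain ⟨v, hv, hv'⟩ := c2 i j hij
  rcases List.mem_cons.1 hv with rfl | hv
  · refine ⟨S, mem_insert_self _ _, fun k => ?_⟩
    rw [rep hT (p := 2 ^ r - 1) fun z => by rw [hy', W4.2.2.2.2 r hr z], hv', decide_eq_true_iff]
  · obtain ⟨S', d1, d2⟩ := real hy hv
    exact ⟨S', mem_insert_of_mem d1, fun k => by rw [d2, hv', decide_eq_true_iff]⟩

def code : Fin 6 ⊕ Fin m → Fin 7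
  | .inl t => t.castSucc
  | .inr _ => 6

lemma rep2 {x : Fin 6 ⊕ Fin m} {S : Finset (Fin 6 ⊕ Fin m)} {t p : ℕ} {k : Fin 4}
    (h1 : S.toLeft = core t) (h2 : ∀ z, x = .inr z → (z ∈ S.toRight ↔ p.testBit k = true)) :
    x ∈ S ↔ bt2 (t, p) (code x) k = true := by
  rcases x with i | z
  · rw [← mem_toLeft, h1]; simp [core, bt2, code]
  · rw [← mem_toRight, h2 z rfl]; simp [bt2, code]

lemma sat1 : ¬ HasCopy 4 (FF m) := by
  intro h
  obtain ⟨x, hx, h⟩ := of_copy h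
  obtain ⟨-, -, -, w, -⟩ := W4
  have d : ∀ i j, i ≠ j → code (x i) = code (x j) → code (x i) = 6 := by
    intro i j hij e
    have := hx.ne hij
    rcases hi : x i with a | a
    · rcases hj : x j with b | b
      · rw [hi, hj] at e this
        exact absurd (congrArg _ (Fin.castSucc_injective _ e)) this
      · rw [hi, hj] at e; exact e
    · rfl
  obtain ⟨i, j, hij⟩ := W2 _ _ (d 0 1 (by decide)) _ (d 0 2 (by decide)) (d 1 2 (by decide)) _
    (d 0 3 (by decide)) (d 1 3 (by decide)) (d 2 3 (by decide))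
  obtain ⟨S, hS, hS'⟩ := h i j
  have key : ∃ v ∈ V2, ∀ k, x k ∈ S ↔ bt2 v (code (x k)) k = true := by
    simp only [V2, V, List.mem_append, List.mem_map, List.mem_flatMap]
    rcases mem_FF.1 hS with ⟨t, h, h1, h2⟩ | ⟨t, h, h1, h2⟩ | ⟨t, h, h1, z, h2⟩ | ⟨t, h, h1, z, h2⟩
    · exact ⟨_, Or.inl (Or.inl (Or.inl (Or.inl (Or.inl ⟨t, h, rfl⟩)))),
        fun k => rep2 h1 fun z _ => by simp [h2]⟩
    · exact ⟨_, Or.inl (Or.inl (Or.inl (Or.inl (Or.inr ⟨t, h, rfl⟩)))),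
        fun k => rep2 h1 fun z _ => by simp [h2, (w k k).2.2]⟩
    · by_cases c : ∃ l, x l = .inr z
      · obtain ⟨l, hl⟩ := c
        refine ⟨_, Or.inl (Or.inl (Or.inl (Or.inr ⟨t, h, l, List.mem_finRange _, rfl⟩))),
          fun k => rep2 h1 fun z' e => ?_⟩
        rw [h2, (w l k).2.1, mem_singleton, ← hx.eq_iff, e, hl, Sum.inr.injEq]
      · refine ⟨_, Or.inl (Or.inr ⟨t, h, rfl⟩), fun k => rep2 h1 fun z' e => ?_⟩
        have : z' ≠ z := fun e' => c ⟨k, e' ▸ e⟩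
        simp [h2, this]
    · by_cases c : ∃ l, x l = .inr z
      · obtain ⟨l, hl⟩ := c
        refine ⟨_, Or.inl (Or.inl (Or.inr ⟨t, h, l, List.mem_finRange _, rfl⟩)),
          fun k => rep2 h1 fun z' e => ?_⟩
        rw [h2, (w l k).1, ← hx.ne_iff, e, hl]
        simp
      · refine ⟨_, Or.inr ⟨t, h, rfl⟩, fun k => rep2 h1 fun z' e => ?_⟩
        have : z' ≠ z := fun e' => c ⟨k, e' ▸ e⟩
        simp [h2, this, (w k k).2.2]
  obtain ⟨v, hv, hv'⟩ := key
  refine hij v hv fun k => ?_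
  have e : ![code (x 0), code (x 1), code (x 2), code (x 3)] k = code (x k) := by
    fin_cases k <;> rfl
  rw [e, Bool.eq_iff_iff, ← hv', hS', decide_eq_true_iff]

theorem upper {n : ℕ} (hn : 10 ≤ n) : satStar n 4 ≤ 6 * n + 1 := by
  obtain ⟨m, rfl⟩ : ∃ m, n = 6 + m := ⟨n - 6, by omega⟩
  have h : Sat 4 (FF m) := ⟨sat1, sat2 (by omega)⟩
  have h2 := Nat.sInf_le (s := {c | ∃ F : Finset (Finset (Fin (6 + m))), Sat 4 F ∧ F.card = c})
    ⟨_, h.map finSumFinEquiv, rfl⟩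
  rw [card_map] at h2
  have := card_FF (m := m)
  unfold satStar
  omega

end Pool.Agent.H.MP_a8c71c_co
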