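import Pool.Agent.H.MP_a8c71c_co.A

namespace Pool.Agent.H.MP_a8c71c_co

open Finset

set_option synthInstance.maxSize 4000 in
lemma W1 : ∀ t < 64, ∀ r < 5, (r = 0 → t ∉ la) → (r = 4 → t ∉ lb) → (r = 1 → t ∉ ll) →
    (r = 3 → t ∉ lu) → (∀ i j, wit t r i = wit t r j → i = j) ∧
      ∀ i j : Fin 4, i ≠ j → ∃ v ∈ (t, 2 ^ r - 1) :: V,
        ∀ k, bt v (wit t r k) = decide (k = i ∨ k = j) := by
  decide +kernel

lemma W2 : ∀ c0 c1 : Fin 7, (c0 = c1 → c0 = 6) → ∀ c2, (c0 = c2 → c0 = 6) → (c1 = c2 → c1 = 6) →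
    ∀ c3, (c0 = c3 → c0 = 6) → (c1 = c3 → c1 = 6) → (c2 = c3 → c2 = 6) →
      ∃ i j : Fin 4, ∀ v ∈ V2, ¬ ∀ k, bt2 v (![c0, c1, c2, c3] k) k = decide (k = i ∨ k = j) := by
  decide +kernel

lemma W3 : ∀ T : Finset (Fin 6), ∃ t < 64, T = core t := by decide +kernel

lemma W4 : (∀ i : Fin 6, (∃ t ∈ la, {i} = core t) ∧ ∃ t ∈ lb, ({i} : Finset (Fin 6))ᶜ = core t) ∧
    core 0 = ∅ ∧ core 63 = univ ∧
    (∀ z z' : Fin 4, ((15 - 2 ^ z.val).testBit z' = true ↔ z' ≠ z) ∧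
      ((2 ^ z.val).testBit z' = true ↔ z' = z) ∧ (15 : ℕ).testBit z' = true) ∧
    ∀ r < 5, ∀ z : Fin 4, ((2 ^ r - 1).testBit z = true ↔ z.val < r) := by decide +kernel

end Pool.Agent.H.MP_a8c71c_co
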